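import Pool.Agent.Helper647.PN.Pairs

set_option autoImplicit false

open Set Cardinal Topology

namespace Pool.Agent.Helper647.PN

/-- conditions: a finite piece of the set and a finite set of promises -/
structure Cond {Λ ι : Type} (V : ι → Set Λ) where
  F : Finset Λ
  G : Finset ι

instance {Λ ι : Type} (V : ι → Set Λ) : Nonempty (Cond V) := ⟨⟨∅, ∅⟩⟩

instance {Λ ι : Type} (V : ι → Set Λ) : PartialOrder (Cond V) where
  le p q := q.F ⊆ p.F ∧ q.G ⊆ p.G ∧ ∀ a ∈ p.F, a ∉ q.F → ∀ i ∈ q.G, a ∉ V i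
  le_refl p := ⟨Finset.Subset.refl _, Finset.Subset.refl _, fun a h1 h2 => absurd h1 h2⟩
  le_trans p q r h1 h2 := by
    refine ⟨h2.1.trans h1.1, h2.2.1.trans h1.2.1, ?_⟩
    intro a ha har i hi
    by_cases haq : a ∈ q.F
    · exact h2.2.2 a haq har i hi
    · exact h1.2.2 a ha haq i (h2.2.1 hi)
  le_antisymm p q h1 h2 := by
    cases p; cases q
    congr 1
    · exact Finset.Subset.antisymm h2.1 h1.1
    · exact Finset.Subset.antisymm h2.2.1 h1.2.1

theorem cond_le {Λ ι : Type} {V : ι → Set Λ} {p q : Cond V} :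
    p ≤ q ↔ q.F ⊆ p.F ∧ q.G ⊆ p.G ∧ ∀ a ∈ p.F, a ∉ q.F → ∀ i ∈ q.G, a ∉ V i := Iff.rfl

theorem ccc {Λ ι T : Type} [TopologicalSpace T] [CompactSpace T] [FirstCountableTopology T]
    (z : Λ → T) (d : ι → T → ℝ) (hd : ∀ i, Continuous (d i))
    (hcount : ∀ i, {a | 1 / 4 ≤ d i (z a)}.Countable)
    (A : Set (Cond fun i => {a | 1 / 2 < d i (z a)}))
    (hA : ∀ a ∈ A, ∀ b ∈ A, a ≠ b → ¬ ∃ c, c ≤ a ∧ c ≤ b) : A.Countable := by
  classical
  by_contra hunc
  -- step 1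
  obtain ⟨n, hn⟩ : ∃ n, ¬ {p ∈ A | p.F.card = n}.Countable := by
    by_contra h
    push Not at h
    apply hunc
    refine (countable_iUnion h).mono ?_
    intro p hp
    exact mem_iUnion.2 ⟨p.F.card, hp, rfl⟩
  -- step 2
  set S : Set ℕ := {m | ∃ R : Finset Λ, R.card = m ∧
    ¬ {p ∈ A | p.F.card = n ∧ R ⊆ p.F}.Countable} with hS
  have hS0 : (0 : ℕ) ∈ S := by
    refine ⟨∅, rfl, ?_⟩
    simpa using hn
  have hSb : BddAbove S := by
    refine ⟨n, ?_⟩
    rintro m ⟨R, rfl, hR⟩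
    have : {p ∈ A | p.F.card = n ∧ R ⊆ p.F}.Nonempty := by
      by_contra he
      rw [not_nonempty_iff_eq_empty] at he
      rw [he] at hR
      exact hR countable_empty
    obtain ⟨p, _, hp, hRp⟩ := this
    rw [← hp]
    exact Finset.card_le_card hRp
  obtain ⟨R, hRc, hRu⟩ := Nat.sSup_mem ⟨0, hS0⟩ hSb
  set A' : Set (Cond fun i => {a | 1 / 2 < d i (z a)}) := {p ∈ A | p.F.card = n ∧ R ⊆ p.F} with hA'
  have hsingle : ∀ ξ, ξ ∉ R → {p ∈ A' | ξ ∈ p.F}.Countable := by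
    intro ξ hξ
    by_contra hc
    have : R.card + 1 ∈ S := by
      refine ⟨insert ξ R, Finset.card_insert_of_notMem hξ, fun hcc => hc (hcc.mono ?_)⟩
      rintro p ⟨⟨hpA, hpn, hpR⟩, hξp⟩
      exact ⟨hpA, hpn, Finset.insert_subset hξp hpR⟩
    have := le_csSup hSb this
    omega
  have hcE : ∀ E : Set Λ, E.Countable → {p ∈ A' | ∃ ξ ∈ E, ξ ∈ p.F ∧ ξ ∉ R}.Countable := by
    intro E hE
    have h1 : (⋃ ξ ∈ E, {p ∈ A' | ξ ∈ p.F ∧ ξ ∉ R}).Countable := by
      refine hE.biUnion fun ξ _ => ?_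
      by_cases hξ : ξ ∈ R
      · refine countable_empty.mono ?_
        rintro p ⟨_, _, h⟩
        exact h hξ
      · refine (hsingle ξ hξ).mono ?_
        rintro p ⟨h1, h2, _⟩
        exact ⟨h1, h2⟩
    refine h1.mono ?_
    rintro p ⟨hp, ξ, hξ, h⟩
    exact mem_biUnion hξ ⟨hp, h⟩
  -- step 4
  obtain ⟨k, hk⟩ : ∃ k, n - R.card = k := ⟨_, rfl⟩
  have henum : ∀ p ∈ A', ∃ e : Fin k → Λ, ∀ ξ, (ξ ∈ p.F ∧ ξ ∉ R) ↔ ∃ c, e c = ξ := by
    rintro p ⟨_, hpn, hpR⟩
    have hcard : (p.F \ R).card = k := by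
      rw [Finset.card_sdiff_of_subset hpR, hpn, hk]
    let e := (p.F \ R).equivFinOfCardEq hcard
    refine ⟨fun c => (e.symm c : Λ), fun ξ => ⟨fun h => ?_, ?_⟩⟩
    · have hm : ξ ∈ p.F \ R := Finset.mem_sdiff.2 h
      exact ⟨e ⟨ξ, hm⟩, by simp⟩
    · rintro ⟨c, rfl⟩
      exact Finset.mem_sdiff.1 (e.symm c).2
  have hΛ : A'.Nonempty := by
    by_contra he
    rw [not_nonempty_iff_eq_empty] at he
    apply hRu
    rw [he]
    exact countable_empty
  have : Nonempty (Fin k → Λ) := ⟨(henum _ hΛ.some_mem).choose⟩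
  choose! e he using henum
  let w : Cond (fun i => {a | 1 / 2 < d i (z a)}) → (Fin k → T) := fun p c => z (e p c)
  -- step 5
  obtain ⟨w0, hw0⟩ : ∃ w0 : Fin k → T, ∀ U ∈ 𝓝 w0, ¬ {p ∈ A' | w p ∈ U}.Countable := by
    by_contra hcon
    push Not at hcon
    choose U hU hUc using hcon
    obtain ⟨t, ht⟩ := CompactSpace.elim_nhds_subcover U hU
    apply hRu
    have : A' ⊆ ⋃ x ∈ t, {p ∈ A' | w p ∈ U x} := by
      intro p hp
      have h1 : w p ∈ (⋃ x ∈ t, U x) := by rw [ht]; trivial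
      simp only [mem_iUnion, exists_prop] at h1
      obtain ⟨x, hx, hpx⟩ := h1
      exact mem_biUnion (Finset.mem_coe.2 hx) ⟨hp, hpx⟩
    exact (t.countable_toSet.biUnion fun x _ => hUc x).mono this
  -- step 6
  obtain ⟨U, hU⟩ := (𝓝 w0).exists_antitone_basis
  have hpj : ∀ j, ∃ p ∈ A', w p ∈ U j := by
    intro j
    by_contra hno
    push Not at hno
    apply hw0 (U j) (hU.1.mem_of_mem trivial)
    refine countable_empty.mono ?_
    rintro p ⟨hp, hpU⟩
    exact hno p hp hpU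
  choose p hpA hpU using hpj
  -- step 7
  set E : Set Λ := ⋃ j, ((↑(p j).F : Set Λ) ∪ ⋃ i ∈ (p j).G, {a | 1 / 4 ≤ d i (z a)}) with hE
  have hEc : E.Countable := by
    refine countable_iUnion fun j => ?_
    refine (p j).F.countable_toSet.union ?_
    exact (p j).G.countable_toSet.biUnion fun i _ => hcount i
  obtain ⟨q, hqA, hqE, hqp⟩ : ∃ q ∈ A', (∀ ξ ∈ E, ¬ (ξ ∈ q.F ∧ ξ ∉ R)) ∧ ∀ j, q ≠ p j := by
    by_contra hno
    push Not at hno
    apply hRu
    refine ((hcE E hEc).union (countable_range p)).mono ?_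
    intro q hq
    by_cases h : ∀ ξ ∈ E, ¬ (ξ ∈ q.F ∧ ξ ∉ R)
    · right
      obtain ⟨j, hj⟩ := hno q hq (by
        intro ξ hξ hqF
        by_contra hR
        exact h ξ hξ ⟨hqF, hR⟩)
      exact ⟨j, hj.symm⟩
    · left
      push Not at h
      obtain ⟨ξ, hξ, h1, h2⟩ := h
      exact ⟨hq, ξ, hξ, h1, h2⟩
  -- step 8
  have hstep : ∀ j, ∃ c, ∃ i ∈ q.G, 1 / 2 < d i (w (p j) c) := by
    intro j
    by_contra hno
    push Not at hno
    apply hA q hqA.1 (p j) (hpA j).1 (hqp j)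
    refine ⟨⟨q.F ∪ (p j).F, q.G ∪ (p j).G⟩, ?_, ?_⟩
    · rw [cond_le]
      refine ⟨Finset.subset_union_left, Finset.subset_union_left, ?_⟩
      intro a ha haq i hi hV
      have haF : a ∈ (p j).F := by
        rcases Finset.mem_union.1 ha with h | h
        · exact absurd h haq
        · exact h
      have haR : a ∉ R := fun h => haq (hqA.2.2 h)
      obtain ⟨c, hc⟩ := (he (p j) (hpA j) a).1 ⟨haF, haR⟩
      have h1 := hno c i hi
      have h2 : (1:ℝ) / 2 < d i (z a) := hV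
      change d i (z (e (p j) c)) ≤ 1 / 2 at h1
      rw [hc] at h1
      linarith
    · rw [cond_le]
      refine ⟨Finset.subset_union_right, Finset.subset_union_right, ?_⟩
      intro a ha haq i hi hV
      have haF : a ∈ q.F := by
        rcases Finset.mem_union.1 ha with h | h
        · exact h
        · exact absurd h haq
      have haR : a ∉ R := fun h => haq ((hpA j).2.2 h)
      have h2 : (1:ℝ) / 2 < d i (z a) := hV
      refine hqE a ?_ ⟨haF, haR⟩
      refine mem_iUnion.2 ⟨j, Or.inr ?_⟩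
      refine mem_biUnion (Finset.mem_coe.2 hi) ?_
      change 1 / 4 ≤ d i (z a)
      linarith
  -- step 9
  have hKc : IsClosed {v : Fin k → T | ∃ c, ∃ i ∈ q.G, 1 / 2 ≤ d i (v c)} := by
    have : {v : Fin k → T | ∃ c, ∃ i ∈ q.G, 1 / 2 ≤ d i (v c)} =
        ⋃ c : Fin k, ⋃ i ∈ q.G, {v : Fin k → T | 1 / 2 ≤ d i (v c)} := by
      ext v; simp
    rw [this]
    refine isClosed_iUnion_of_finite fun c => ?_
    refine Set.Finite.isClosed_biUnion q.G.finite_toSet fun i _ => ?_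
    exact isClosed_le continuous_const ((hd i).comp (continuous_apply c))
  have htend : Filter.Tendsto (fun j => w (p j)) Filter.atTop (𝓝 w0) :=
    hU.tendsto hpU
  have hmem := hKc.mem_of_tendsto htend (Filter.Eventually.of_forall fun j => by
    obtain ⟨c, i, hi, h⟩ := hstep j
    exact ⟨c, i, hi, h.le⟩)
  obtain ⟨c, i, hi, hw⟩ := hmem
  -- step 10
  refine hw0 {v | 1 / 4 < d i (v c)} ?_ ?_
  · refine IsOpen.mem_nhds (isOpen_lt continuous_const ((hd i).comp (continuous_apply c))) ?_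
    change 1 / 4 < d i (w0 c)
    linarith
  · refine (hcE _ (hcount i)).mono ?_
    rintro r ⟨hr, hrU⟩
    have h1 : (1:ℝ) / 4 < d i (z (e r c)) := hrU
    have h2 := (he r hr (e r c)).2 ⟨c, rfl⟩
    exact ⟨hr, e r c, h1.le, h2⟩

end Pool.Agent.Helper647.PN
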