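import Pool.Agent.Helper647.PN.Forcing

set_option autoImplicit false

open Set Cardinal Topology

namespace Pool.Agent.Helper647.PN

/-- Martin's axiom: every ccc poset has, for every family of fewer than `𝔠` dense sets, a filter
meeting all of them. -/
def MartinAxiom : Prop :=
  ∀ (P : Type) [PartialOrder P] [Nonempty P],
    (∀ A : Set P, (∀ a ∈ A, ∀ b ∈ A, a ≠ b → ¬ ∃ c : P, c ≤ a ∧ c ≤ b) → A.Countable) →
      ∀ (ι : Type) (D : ι → Set P), #ι < 𝔠 → (∀ i, ∀ p : P, ∃ q ∈ D i, q ≤ p) →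
        ∃ G : Set P, G.Nonempty ∧ (∀ a ∈ G, ∀ b : P, a ≤ b → b ∈ G) ∧
          (∀ a ∈ G, ∀ b ∈ G, ∃ c ∈ G, c ≤ a ∧ c ≤ b) ∧ ∀ i, (D i ∩ G).Nonempty

/-- `p(C_p(X)) = ω`: every point-finite family of nonempty open subsets of `C_p(X)` is
countable. -/
def CountablePointFiniteCellularity (X : Type) [TopologicalSpace X] : Prop :=
  ∀ 𝒰 : Set (Set C(X, ℝ)),
    (∀ U ∈ 𝒰,
        IsOpen[TopologicalSpace.induced (fun f : C(X, ℝ) => (⇑f : X → ℝ))
          (inferInstance : TopologicalSpace (X → ℝ))] U ∧ U.Nonempty) →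
    (∀ f : C(X, ℝ), {U | U ∈ 𝒰 ∧ f ∈ U}.Finite) →
    𝒰.Countable

/-- the weight of `X` is smaller than `κ` -/
def WeightLT (X : Type) [TopologicalSpace X] (κ : Cardinal.{0}) : Prop :=
  ∃ B : Set (Set X), TopologicalSpace.IsTopologicalBasis B ∧ #B < κ

theorem firstCountable (X : Type) [TopologicalSpace X] [CompactSpace X] [T2Space X]
    [PerfectlyNormalSpace X] : FirstCountableTopology X := by
  obtain ⟨g, hg⟩ := exists_base_fun X
  refine ⟨fun x => ?_⟩
  have : 𝓝 x = Filter.comap (g x) (𝓝 0) := by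
    apply le_antisymm
    · rw [← Filter.tendsto_iff_comap]
      have := (g x).continuous.tendsto x
      rwa [(hg x).1] at this
    · intro U hU
      obtain ⟨V, hVU, hVo, hxV⟩ := mem_nhds_iff.1 hU
      obtain ⟨ε, hε, h⟩ := (hg x).2 V hVo hxV
      refine Filter.mem_comap.2 ⟨Metric.ball 0 ε, Metric.ball_mem_nhds _ hε, ?_⟩
      intro y hy
      apply hVU
      apply h
      simpa using hy
  rw [this]
  infer_instance

/-- the family of functions attached to a base -/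
theorem exists_family {X : Type} [TopologicalSpace X] [CompactSpace X] [T2Space X]
    {B : Set (Set X)} (hB : TopologicalSpace.IsTopologicalBasis B) (hc : #B < 𝔠) :
    ∃ (ι : Type) (f : ι → C(X, ℝ)), #ι < 𝔠 ∧ ∀ x y, x ≠ y → ∃ i, 1 / 2 < |f i x - f i y| := by
  let ι : Type := {p : B × B // Disjoint (closure (p.1 : Set X)) (closure (p.2 : Set X))}
  have hf : ∀ i : ι, ∃ f : C(X, ℝ), EqOn f 0 (closure (i.1.1 : Set X)) ∧
      EqOn f 1 (closure (i.1.2 : Set X)) ∧ ∀ y, f y ∈ Icc (0:ℝ) 1 := fun i =>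
    exists_continuous_zero_one_of_isClosed isClosed_closure isClosed_closure i.2
  choose f hf0 hf1 hf2 using hf
  refine ⟨ι, f, ?_, ?_⟩
  · refine lt_of_le_of_lt (mk_subtype_le _) ?_
    rw [mk_prod, lift_id]
    exact mul_lt_of_lt aleph0_le_continuum hc hc
  · intro x y hxy
    obtain ⟨u, hxu, huo, v, hyv, hvo, huv⟩ := exists_open_nhds_disjoint_closure hxy
    obtain ⟨b, hbB, hxb, hbu⟩ := hB.exists_subset_of_mem_open hxu huo
    obtain ⟨c, hcB, hyc, hcv⟩ := hB.exists_subset_of_mem_open hyv hvo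
    refine ⟨⟨(⟨b, hbB⟩, ⟨c, hcB⟩), huv.mono (closure_mono hbu) (closure_mono hcv)⟩, ?_⟩
    rw [hf0 _ (subset_closure hxb), hf1 _ (subset_closure hyc)]
    norm_num

theorem main (MA : MartinAxiom) (X : Type) [TopologicalSpace X] [CompactSpace X] [T2Space X]
    [PerfectlyNormalSpace X] (hw : WeightLT X 𝔠) (hp : CountablePointFiniteCellularity X) :
    TopologicalSpace.MetrizableSpace X := by
  classical
  by_contra hX
  obtain ⟨B, hB, hBc⟩ := hw
  have hCH : (ℵ₁ : Cardinal.{0}) < 𝔠 := by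
    by_contra h
    rw [not_lt] at h
    apply hX
    have h1 : #B < ℵ₁ := lt_of_lt_of_le hBc h
    have h2 : #B ≤ ℵ₀ := by
      rw [← succ_aleph0] at h1
      exact Order.lt_succ_iff.1 h1
    have : B.Countable := le_aleph0_iff_set_countable.1 h2
    have : SecondCountableTopology X := hB.secondCountableTopology this
    exact TopologicalSpace.metrizableSpace_of_t3_secondCountable X
  have hfc := firstCountable X
  -- index set
  let Λ : Type := (Cardinal.ord ℵ₁).ToType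
  have hΛ : ∀ a : Λ, (Iio a).Countable := by
    intro a
    exact (countable_iff_lt_aleph_one _).2 (mk_Iio_toType_ord_lt a)
  have hΛc : #Λ = ℵ₁ := by simp [Λ]
  have hunc : ∀ E : Set Λ, E.Countable → ∃ a, a ∉ E := by
    intro E hE
    by_contra hno
    push Not at hno
    have h1 : E = Set.univ := eq_univ_of_forall hno
    rw [h1] at hE
    have h2 : #(Set.univ : Set Λ) ≤ ℵ₀ := le_aleph0_iff_set_countable.2 hE
    rw [mk_univ, hΛc] at h2
    exact absurd h2 (not_le.2 aleph0_lt_aleph_one)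
  have hIic : ∀ a : Λ, (Iic a).Countable := by
    intro a
    rw [← Iio_insert]
    exact (hΛ a).insert a
  obtain ⟨z, hz1, hz2⟩ := exists_seq hX hΛ
  obtain ⟨ι, f, hι, hsep⟩ := exists_family hB hBc
  let d : ι → X × X → ℝ := fun i p => |f i p.1 - f i p.2|
  have hd : ∀ i, Continuous (d i) := by
    intro i
    simp only [d]
    fun_prop
  have hcount : ∀ i, {a | 1 / 4 ≤ d i (z a)}.Countable := fun i => hz2 (f i) (1 / 4) (by norm_num)
  let V : ι → Set Λ := fun i => {a | 1 / 2 < d i (z a)}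
  have hccc := ccc z d hd hcount
  let D : Λ ⊕ ι → Set (Cond V) := fun s => match s with
    | Sum.inl δ => {p | ∃ a ∈ p.F, δ < a}
    | Sum.inr i => {p | i ∈ p.G}
  have hDc : #(Λ ⊕ ι) < 𝔠 := by
    rw [mk_sum, lift_id, lift_id, hΛc]
    exact add_lt_of_lt aleph0_le_continuum hCH hι
  have hDd : ∀ s, ∀ p : Cond V, ∃ q ∈ D s, q ≤ p := by
    intro s p
    match s with
    | Sum.inl δ =>
      obtain ⟨a, ha⟩ := hunc (Iic δ ∪ ⋃ i ∈ p.G, {a | 1 / 4 ≤ d i (z a)})
        ((hIic δ).union (p.G.countable_toSet.biUnion fun i _ => hcount i))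
      rw [mem_union, not_or] at ha
      refine ⟨⟨insert a p.F, p.G⟩, ⟨a, Finset.mem_insert_self _ _, not_le.1 ha.1⟩, ?_⟩
      rw [cond_le]
      refine ⟨Finset.subset_insert _ _, Finset.Subset.refl _, ?_⟩
      intro b hb hbp i hi hV
      rcases Finset.mem_insert.1 hb with rfl | h
      · apply ha.2
        refine mem_biUnion (Finset.mem_coe.2 hi) ?_
        have : (1:ℝ) / 2 < d i (z b) := hV
        change 1 / 4 ≤ d i (z b)
        linarith
      · exact hbp h
    | Sum.inr i =>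
      refine ⟨⟨p.F, insert i p.G⟩, Finset.mem_insert_self _ _, ?_⟩
      rw [cond_le]
      exact ⟨Finset.Subset.refl _, Finset.subset_insert _ _, fun a h1 h2 => absurd h1 h2⟩
  obtain ⟨G, -, -, hG3, hG4⟩ := MA (Cond V) hccc (Λ ⊕ ι) D hDc hDd
  set Γ : Set Λ := {a | ∃ p ∈ G, a ∈ p.F} with hΓ
  have hΓu : ¬ Γ.Countable := by
    intro hc
    obtain ⟨δ, hδ⟩ := hunc (⋃ a ∈ Γ, Iic a) (hc.biUnion fun a _ => hIic a)
    obtain ⟨p, ⟨a, ha, hδa⟩, hpG⟩ := hG4 (Sum.inl δ)
    exact hδ (mem_biUnion (show a ∈ Γ from ⟨p, hpG, ha⟩) hδa.le)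
  have hfin1 : ∀ i, {a ∈ Γ | 1 / 2 < d i (z a)}.Finite := by
    intro i
    obtain ⟨q, hq, hqG⟩ := hG4 (Sum.inr i)
    refine q.F.finite_toSet.subset ?_
    rintro a ⟨⟨p, hpG, hap⟩, hV⟩
    obtain ⟨r, hrG, hrp, hrq⟩ := hG3 p hpG q hqG
    by_contra hnot
    exact (cond_le.1 hrq).2.2 a ((cond_le.1 hrp).1 hap) hnot i hq hV
  have hfin2 : ∀ g : C(X, ℝ), {a ∈ Γ | 1 ≤ |g (z a).1 - g (z a).2|}.Finite := by
    intro g
    have hK : IsCompact {p : X × X | 1 ≤ |g p.1 - g p.2|} :=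
      (isClosed_le continuous_const (by fun_prop)).isCompact
    obtain ⟨t, ht⟩ := hK.elim_finite_subcover (fun i => {p : X × X | 1 / 2 < d i p})
      (fun i => isOpen_lt continuous_const (hd i)) (by
        intro p hp
        have hne : p.1 ≠ p.2 := by
          intro h
          have h1 : (1:ℝ) ≤ |g p.1 - g p.2| := hp
          rw [h] at h1
          simp at h1
          linarith
        obtain ⟨i, hi⟩ := hsep p.1 p.2 hne
        exact mem_iUnion.2 ⟨i, hi⟩)
    refine ((t.finite_toSet.biUnion fun i _ => hfin1 i)).subset ?_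
    rintro a ⟨haΓ, ha⟩
    have h1 := ht (show z a ∈ {p : X × X | 1 ≤ |g p.1 - g p.2|} from ha)
    simp only [mem_iUnion, exists_prop] at h1
    obtain ⟨i, hi, hlt⟩ := h1
    exact mem_biUnion (Finset.mem_coe.2 hi) ⟨haΓ, hlt⟩
  -- the point-finite family
  let O : Λ → Set C(X, ℝ) := fun a => {g | 1 < |g (z a).1 - g (z a).2|}
  have hOn : ∀ a, (O a).Nonempty := by
    intro a
    obtain ⟨g, hg0, hg1, -⟩ := exists_continuous_zero_one_of_isClosed
      (isClosed_singleton (x := (z a).1)) (isClosed_singleton (x := (z a).2))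
      (by rw [disjoint_singleton]; exact hz1 a)
    refine ⟨(2:ℝ) • g, ?_⟩
    have h0 : g (z a).1 = 0 := hg0 rfl
    have h1 : g (z a).2 = 1 := hg1 rfl
    simp [O, h0, h1]
  have h𝒰 := hp (O '' Γ) (by
    rintro U ⟨a, _, rfl⟩
    refine ⟨?_, hOn a⟩
    refine isOpen_induced_iff.2 ⟨{h : X → ℝ | 1 < |h (z a).1 - h (z a).2|}, ?_, rfl⟩
    exact isOpen_lt continuous_const (by fun_prop)) (by
    intro g
    refine ((hfin2 g).image O).subset ?_
    rintro U ⟨⟨a, ha, rfl⟩, hg⟩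
    have hg' : (1:ℝ) < |g (z a).1 - g (z a).2| := hg
    exact ⟨a, ⟨ha, hg'.le⟩, rfl⟩)
  apply hΓu
  have hcov : Γ ⊆ ⋃ U ∈ O '' Γ, {a ∈ Γ | O a = U} := by
    intro a ha
    exact mem_biUnion (mem_image_of_mem O ha) ⟨ha, rfl⟩
  refine (h𝒰.biUnion ?_).mono hcov
  rintro U ⟨b, hb, rfl⟩
  obtain ⟨g, hg⟩ := hOn b
  refine ((hfin2 g).subset ?_).countable
  rintro a ⟨ha, hab⟩
  have : g ∈ O a := by rw [hab]; exact hg
  have h1 : (1:ℝ) < |g (z a).1 - g (z a).2| := this
  exact ⟨ha, h1.le⟩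

end Pool.Agent.Helper647.PN
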