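import Mathlib

set_option autoImplicit false

open Set Cardinal Topology

namespace Pool.Agent.Helper647.PN

/-- in a perfectly normal compact space every union of open sets is a countable subunion -/
theorem countable_subunion {X : Type} [TopologicalSpace X] [CompactSpace X]
    [PerfectlyNormalSpace X] {Λ : Type} (Γ : Set Λ) (V : Λ → Set X) (hV : ∀ a ∈ Γ, IsOpen (V a)) :
    ∃ Γ₀ ⊆ Γ, Γ₀.Countable ∧ (⋃ a ∈ Γ, V a) ⊆ ⋃ a ∈ Γ₀, V a := by
  have hop : IsOpen (⋃ a ∈ Γ, V a) := isOpen_biUnion hV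
  have hG := PerfectlyNormalSpace.closed_gdelta hop.isClosed_compl
  obtain ⟨T, hT, hTc, hTe⟩ := hG
  have hcov : ∀ t ∈ T, ∃ b : Finset Λ, (↑b : Set Λ) ⊆ Γ ∧ tᶜ ⊆ ⋃ a ∈ b, V a := by
    intro t ht
    have hK : IsCompact tᶜ := (hT t ht).isClosed_compl.isCompact
    have hsub : tᶜ ⊆ ⋃ a : Γ, V a := by
      intro x hx
      have hx' : x ∈ ⋃ a ∈ Γ, V a := by
        by_contra hc
        have h1 : x ∈ (⋃ a ∈ Γ, V a)ᶜ := hc
        rw [hTe] at h1
        exact hx (h1 t ht)
      simpa using hx'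
    obtain ⟨b, hb⟩ := hK.elim_finite_subcover (fun a : Γ => V a) (fun a => hV a a.2) hsub
    classical
    refine ⟨b.image Subtype.val, ?_, ?_⟩
    · intro a ha
      simp only [Finset.coe_image, mem_image, Finset.mem_coe] at ha
      obtain ⟨c, _, rfl⟩ := ha
      exact c.2
    · intro x hx
      have := hb hx
      simp only [mem_iUnion, exists_prop] at this ⊢
      obtain ⟨a, ha, hxa⟩ := this
      exact ⟨a, Finset.mem_image_of_mem _ ha, hxa⟩
  choose! b hb1 hb2 using hcov
  refine ⟨⋃ t ∈ T, (↑(b t) : Set Λ), ?_, ?_, ?_⟩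
  · exact iUnion₂_subset hb1
  · exact hTc.biUnion fun t _ => (b t).countable_toSet
  · intro x hx
    have h1 : x ∉ (⋃ a ∈ Γ, V a)ᶜ := fun h => h hx
    rw [hTe] at h1
    simp only [mem_sInter, not_forall] at h1
    obtain ⟨t, ht, hxt⟩ := h1
    have h2 := hb2 t ht hxt
    simp only [mem_iUnion, exists_prop] at h2 ⊢
    obtain ⟨a, ha, hxa⟩ := h2
    exact ⟨a, ⟨t, ht, ha⟩, hxa⟩

/-- a base function at every point -/
theorem exists_base_fun (X : Type) [TopologicalSpace X] [CompactSpace X] [T2Space X]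
    [PerfectlyNormalSpace X] :
    ∃ g : X → C(X, ℝ), ∀ x, g x x = 0 ∧
      ∀ U : Set X, IsOpen U → x ∈ U → ∃ ε > 0, ∀ y, |g x y| < ε → y ∈ U := by
  have key : ∀ x : X, ∃ g : C(X, ℝ), g x = 0 ∧
      ∀ U : Set X, IsOpen U → x ∈ U → ∃ ε > 0, ∀ y, |g y| < ε → y ∈ U := by
    intro x
    obtain ⟨T, hT, hTc, hTe⟩ := PerfectlyNormalSpace.closed_gdelta (isClosed_singleton (x := x))
    -- enumerate
    have hcase : ∃ t : ℕ → Set X, (∀ n, IsOpen (t n)) ∧ ({x} : Set X) = ⋂ n, t n := by
      rcases T.eq_empty_or_nonempty with h | h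
      · refine ⟨fun _ => univ, fun _ => isOpen_univ, ?_⟩
        rw [hTe, h]; simp
      · obtain ⟨t, ht⟩ := hTc.exists_eq_range h
        refine ⟨t, fun n => hT _ (by rw [ht]; exact mem_range_self n), ?_⟩
        rw [hTe, ht, sInter_range]
    obtain ⟨t, hto, hte⟩ := hcase
    have hf : ∀ n, ∃ f : C(X, ℝ), EqOn f 0 {x} ∧ EqOn f 1 (t n)ᶜ ∧ ∀ y, f y ∈ Icc (0:ℝ) 1 := by
      intro n
      have hx : x ∈ t n := by
        have : x ∈ ⋂ n, t n := by rw [← hte]; rfl
        exact mem_iInter.1 this n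
      refine exists_continuous_zero_one_of_isClosed isClosed_singleton (hto n).isClosed_compl ?_
      rw [disjoint_singleton_left]
      exact fun h => h hx
    choose f hf0 hf1 hf2 using hf
    have hsum : Summable fun n : ℕ => ((1:ℝ)/2)^n := summable_geometric_two
    have hcont : Continuous fun y => ∑' n, ((1:ℝ)/2)^n * f n y := by
      refine continuous_tsum (fun n => by fun_prop) hsum ?_
      intro n y
      rw [norm_mul, Real.norm_of_nonneg (by positivity), Real.norm_of_nonneg (hf2 n y).1]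
      exact mul_le_of_le_one_right (by positivity) (hf2 n y).2
    have hsy : ∀ y, Summable fun n => ((1:ℝ)/2)^n * f n y := by
      intro y
      refine Summable.of_nonneg_of_le (fun n => mul_nonneg (by positivity) (hf2 n y).1) ?_ hsum
      intro n
      exact mul_le_of_le_one_right (by positivity) (hf2 n y).2
    let g : C(X, ℝ) := ⟨fun y => ∑' n, ((1:ℝ)/2)^n * f n y, hcont⟩
    have hg0 : g x = 0 := by
      change ∑' n, ((1:ℝ)/2)^n * f n x = 0
      have : ∀ n, ((1:ℝ)/2)^n * f n x = 0 := by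
        intro n
        rw [hf0 n rfl]; simp
      exact (tsum_congr this).trans tsum_zero
    have hgnn : ∀ y, 0 ≤ g y := fun y => tsum_nonneg fun n => mul_nonneg (by positivity) (hf2 n y).1
    have hgpos : ∀ y, y ≠ x → 0 < g y := by
      intro y hy
      have h1 : y ∉ ⋂ n, t n := by
        rw [← hte]; exact hy
      simp only [mem_iInter, not_forall] at h1
      obtain ⟨n, hn⟩ := h1
      have h2 : f n y = 1 := hf1 n hn
      have h3 : ((1:ℝ)/2)^n * f n y ≤ g y :=
        (hsy y).le_tsum n (fun m _ => mul_nonneg (by positivity) (hf2 m y).1)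
      rw [h2, mul_one] at h3
      exact lt_of_lt_of_le (by positivity) h3
    refine ⟨g, hg0, ?_⟩
    intro U hU hxU
    rcases (Uᶜ : Set X).eq_empty_or_nonempty with he | hne
    · refine ⟨1, one_pos, fun y _ => ?_⟩
      by_contra hy
      have : y ∈ (Uᶜ : Set X) := hy
      rw [he] at this
      exact this
    · obtain ⟨y₀, hy₀, hmin⟩ := hU.isClosed_compl.isCompact.exists_isMinOn hne
        (g.continuous.continuousOn)
      refine ⟨g y₀, hgpos y₀ (fun h => hy₀ (h ▸ hxU)), fun y hy => ?_⟩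
      by_contra hyU
      have h1 : g y₀ ≤ g y := hmin hyU
      have h2 : g y ≤ |g y| := le_abs_self _
      linarith
  choose g hg using key
  exact ⟨g, hg⟩

/-- pairs that are not separated by countably many functions -/
theorem exists_pair {X : Type} [TopologicalSpace X] [CompactSpace X] [T2Space X]
    (hX : ¬ TopologicalSpace.MetrizableSpace X) (g : X → C(X, ℝ)) (S : Set X)
    (hS : S.Countable) : ∃ p : X × X, p.1 ≠ p.2 ∧ ∀ s ∈ S, g s p.1 = g s p.2 := by
  by_contra hcon
  push Not at hcon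
  apply hX
  have : Countable S := hS.to_subtype
  let Φ : X → (S → ℝ) := fun x s => g s x
  have hc : Continuous Φ := by
    refine continuous_pi fun s => (g s).continuous
  have hinj : Function.Injective Φ := by
    intro a b hab
    by_contra hne
    obtain ⟨s, hs, h⟩ := hcon (a, b) hne
    exact h (congrFun hab ⟨s, hs⟩)
  have hemb := (hc.isClosedEmbedding hinj).isEmbedding
  have : SecondCountableTopology X := hemb.secondCountableTopology
  exact TopologicalSpace.metrizableSpace_of_t3_secondCountable X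

/-- the sequence of pairs -/
theorem exists_seq {X : Type} [TopologicalSpace X] [CompactSpace X] [T2Space X]
    [PerfectlyNormalSpace X] (hX : ¬ TopologicalSpace.MetrizableSpace X)
    {Λ : Type} [LinearOrder Λ] [WellFoundedLT Λ] (hΛ : ∀ a : Λ, (Iio a).Countable) :
    ∃ z : Λ → X × X, (∀ a, (z a).1 ≠ (z a).2) ∧
      ∀ (f : C(X, ℝ)) (ε : ℝ), 0 < ε → {a | ε ≤ |f (z a).1 - f (z a).2|}.Countable := by
  obtain ⟨g, hg⟩ := exists_base_fun X
  have hstep := exists_pair hX g
  have : Nonempty (X × X) := ⟨(hstep ∅ countable_empty).choose⟩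
  choose! φ hφ1 hφ2 using hstep
  let z : Λ → X × X := IsWellFounded.fix (· < ·)
    (fun a ih => φ {x | ∃ (b : Λ) (h : b < a), x = (ih b h).1})
  have hz : ∀ a, z a = φ {x | ∃ b : Λ, b < a ∧ x = (z b).1} := by
    intro a
    have := IsWellFounded.fix_eq (· < ·)
      (fun (a : Λ) (ih : ∀ b : Λ, b < a → X × X) => φ {x | ∃ (b : Λ) (h : b < a), x = (ih b h).1}) a
    change IsWellFounded.fix (· < ·) _ a = _
    rw [this]
    congr 1
    ext x
    simp only [mem_setOf_eq, exists_prop]
    rfl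
  have hcnt : ∀ a, {x | ∃ b : Λ, b < a ∧ x = (z b).1}.Countable := by
    intro a
    refine ((hΛ a).image fun b => (z b).1).mono ?_
    rintro x ⟨b, hb, rfl⟩
    exact ⟨b, hb, rfl⟩
  have hz1 : ∀ a, (z a).1 ≠ (z a).2 := by
    intro a
    rw [hz a]
    exact hφ1 _ (hcnt a)
  have hz2 : ∀ a b, b < a → g (z b).1 (z a).1 = g (z b).1 (z a).2 := by
    intro a b hb
    have h := hφ2 _ (hcnt a) (z b).1 ⟨b, hb, rfl⟩
    rw [← hz a] at h
    exact h
  refine ⟨z, hz1, ?_⟩
  intro f ε hε
  by_contra hunc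
  set Γ : Set Λ := {a | ε ≤ |f (z a).1 - f (z a).2|} with hΓ
  -- neighbourhoods
  have hnb : ∀ a, ∃ δ > 0, ∀ y, |g (z a).1 y| < δ → |f y - f (z a).1| < ε / 4 := by
    intro a
    obtain ⟨δ, hδ, h⟩ := (hg (z a).1).2 {y | |f y - f (z a).1| < ε / 4}
      (isOpen_lt (by fun_prop) continuous_const) (by simp; linarith)
    exact ⟨δ, hδ, h⟩
  choose δ hδ hnb using hnb
  obtain ⟨Γ₀, hsub, hc, hcov⟩ := countable_subunion Γ
    (fun a => {y | |g (z a).1 y| < δ a}) (fun a _ => isOpen_lt (by fun_prop) continuous_const)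
  -- an index above Γ₀
  have : ∃ c ∈ Γ, ∀ a ∈ Γ₀, a < c := by
    by_contra hno
    push Not at hno
    apply hunc
    have : Γ ⊆ ⋃ a ∈ Γ₀, Iic a := by
      intro c hc'
      obtain ⟨a, ha, hle⟩ := hno c hc'
      exact mem_biUnion ha hle
    refine (hc.biUnion fun a _ => ?_).mono this
    have : Iic a = insert a (Iio a) := by
      rw [Iio_insert]
    rw [this]
    exact (hΛ a).insert a
  obtain ⟨c, hcΓ, hclt⟩ := this
  have hmem : (z c).1 ∈ ⋃ a ∈ Γ, {y | |g (z a).1 y| < δ a} := by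
    refine mem_biUnion hcΓ ?_
    simp only [mem_setOf_eq, (hg (z c).1).1, abs_zero]
    exact hδ c
  have h1 := hcov hmem
  simp only [mem_iUnion, exists_prop, mem_setOf_eq] at h1
  obtain ⟨a, ha, hlt⟩ := h1
  have h2 : |g (z a).1 (z c).2| < δ a := by
    rw [← hz2 c a (hclt a ha)]; exact hlt
  have h3 := hnb a _ hlt
  have h4 := hnb a _ h2
  have h5 : ε ≤ |f (z c).1 - f (z c).2| := hcΓ
  have h6 : |f (z c).1 - f (z c).2| ≤ |f (z c).1 - f (z a).1| + |f (z c).2 - f (z a).1| := by
    have := abs_sub_le (f (z c).1) (f (z a).1) (f (z c).2)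
    rw [abs_sub_comm (f (z a).1) (f (z c).2)] at this
    exact this
  linarith

end Pool.Agent.Helper647.PN
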